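import Pool.Agent.MWGR.StmtsC

/-!
# Row CSP of the table mwgr: crossing in all contexts where the labels do not matter
-/

namespace Pool.Agent.MWGR.H10

open Pool.Agent.Helper14_MV Pool.Agent.Helper2_MV Pool.Agent.MVO Pool.Agent.MWL Pool.Agent.MWS
  Pool.Agent.MWH Pool.Agent.MWGR

theorem csp (hK : KcrStmt) : CspStmt := by
  intro n η hB H pre suf x a
  refine ⟨?_, ?_, ?_⟩
  · intro hk hs A D _
    have h := hK η hk (pre ++ A) (D ++ suf) x a (by
      rcases hs with h | h
      · exact Or.inl (h.trans (List.sublist_append_right _ _))
      · exact Or.inr (h.trans (List.sublist_append_right _ _)))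
    simpa only [Wd, List.append_assoc, List.cons_append] using h
  · rintro (⟨q, w, r, hs, hw⟩ | ⟨q, w, r, hs, hw⟩) A D _
    · have h := hB.f (pre ++ A) (D ++ q) w r x a (by
        intro z hz
        have h1 := hw z hz
        rw [hs] at h1
        have e : (pre ++ A) ++ x :: a :: ((D ++ q) ++ x :: (w ++ a :: r)) =
            ((pre ++ A) ++ x :: a :: D) ++ (q ++ x :: (w ++ a :: r)) := by simp
        rw [e, List.count_append]
        omega)
      rw [hs]
      simpa only [Wd, List.append_assoc, List.cons_append] using h
    · have h := hB.f (pre ++ A) (D ++ q) w r a x (by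
        intro z hz
        have h1 := hw z hz
        rw [hs] at h1
        have e : (pre ++ A) ++ a :: x :: ((D ++ q) ++ a :: (w ++ x :: r)) =
            ((pre ++ A) ++ a :: x :: D) ++ (q ++ a :: (w ++ x :: r)) := by simp
        rw [e, List.count_append]
        omega)
      rw [hs]
      have h' := RR.symm h
      simpa only [Wd, List.append_assoc, List.cons_append] using h'
  · intro hk hs A D hx _
    have h := hK η hk (pre ++ A) (D ++ suf) x a (Or.inl (by
      have h1 : [x].Sublist D := List.singleton_sublist.mpr hx
      exact h1.append hs))
    simpa only [Wd, List.append_assoc, List.cons_append] using h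

end Pool.Agent.MWGR.H10
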