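import Pool.Agent.MWGR.StmtsD

/-!
# Row NTZ of the table mwgr
-/

namespace Pool.Agent.MWGR.H10

open Pool.Agent.Helper14_MV Pool.Agent.Helper2_MV Pool.Agent.MVO Pool.Agent.MWL Pool.Agent.MWS
  Pool.Agent.MWH Pool.Agent.MWGR

theorem fm_rep (g : ℕ → List ℕ) (k : ℕ) (h : g 0 = [0]) : (X k).flatMap g = X k := by
  induction k with
  | zero => rfl
  | succ k ih =>
    have e : X (k + 1) = 0 :: X k := List.replicate_succ
    rw [e, List.flatMap_cons, ih, h]; rfl

theorem ntz (hE : ExgStmt) (hN : NtaStmt) : NtzStmt := by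
  intro n θ hB t s' t' r r' ht hst hs' hr hr' h
  have hpos := hB.pos
  have mX : ∀ k c, c ∈ X k → c = 0 := fun k c hc => (List.mem_replicate.mp hc).2
  have h1 : RR θ (1 :: (X t ++ [2, 1])) (X s' ++ 1 :: (X t' ++ [2, 1])) := by
    refine hN n θ hB [] (X t) [] (X s') (X t') [] 1 2 r r' hr hr' (by norm_num) ?_ ?_
    · intro D hD
      simp only [List.mem_cons, List.not_mem_nil, or_false] at hD
      have key : ∀ k, 1 ∉ X k ∧ 2 ∉ X k := fun k =>
        ⟨fun hc => absurd (mX k 1 hc) (by norm_num), fun hc => absurd (mX k 2 hc) (by norm_num)⟩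
      rcases hD with rfl | rfl | rfl | rfl | rfl | rfl
      · simp
      · exact key t
      · simp
      · exact key s'
      · exact key t'
      · simp
    · simpa only [List.append_nil, List.nil_append] using h
  have h2 : RR θ (X (n + s') ++ 1 :: (X t' ++ [2, 1])) (X s' ++ 1 :: (X t' ++ [2, 1])) := by
    have hE' := hE n θ hB [] (1 :: (X t' ++ [2, 1])) 0 (n + s') s' (by
      rw [Nat.ModEq, Nat.add_mod_left])
    rcases Nat.eq_zero_or_pos t' with h0 | h0
    · exact hE'.2.1 (by omega) (by omega)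
    · refine hE'.2.2.2 [1] (X (t' - 1) ++ [2, 1]) ?_ (by omega) hs' ?_
      · obtain ⟨k, rfl⟩ : ∃ k, t' = k + 1 := ⟨t' - 1, by omega⟩
        rw [Nat.add_sub_cancel]
        have e : X (k + 1) = 0 :: X k := List.replicate_succ
        rw [e]; rfl
      · intro c hc _
        rw [List.mem_singleton] at hc
        rw [hc]
        simp [List.count_append]
  have h3 : RR θ (1 :: (X t ++ [2, 1])) (X n ++ 1 :: (X t ++ [2, 1])) := by
    have h4 := RR.append (RR.refl (X n)) h1
    have e : X n ++ (X s' ++ 1 :: (X t' ++ [2, 1])) = X (n + s') ++ 1 :: (X t' ++ [2, 1]) := by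
      rw [← List.append_assoc, List.replicate_append_replicate]
    rw [e] at h4
    exact θ.trans h1 (RR.symm (θ.trans h4 h2))
  have h5 := RR.sub (fun c => if c = 2 then X ((n - 1) * t + 2) ++ [2] else [c]) h3
  have e1 : (1 :: (X t ++ [2, 1])).flatMap
      (fun c => if c = 2 then X ((n - 1) * t + 2) ++ [2] else [c]) =
        1 :: (X (n * t + 2) ++ [2, 1]) := by
    rw [List.flatMap_cons, List.flatMap_append, fm_rep _ _ (by simp)]
    have e2 : X (n * t + 2) = X t ++ X ((n - 1) * t + 2) := by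
      rw [List.replicate_append_replicate]
      congr 1
      obtain ⟨k, rfl⟩ : ∃ k, n = k + 1 := ⟨n - 1, by omega⟩
      rw [Nat.add_sub_cancel, Nat.succ_mul]
      omega
    have e3 : [2, 1].flatMap (fun c => if c = 2 then X ((n - 1) * t + 2) ++ [2] else [c]) =
        X ((n - 1) * t + 2) ++ [2, 1] := by
      rw [List.flatMap_cons, List.flatMap_singleton, if_pos rfl, if_neg (by norm_num),
        List.append_assoc]
      rfl
    rw [e2, e3, if_neg (by norm_num), List.append_assoc]
    rfl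
  rw [List.flatMap_append, e1, fm_rep _ _ (by simp)] at h5
  have hmod : n * t + 2 ≡ 2 [MOD n] := by
    rw [Nat.ModEq, Nat.mul_add_mod]
  have h6 : RR θ (1 :: (X (n * t + 2) ++ [2, 1])) [1, 0, 0, 2, 1] :=
    (hE n θ hB [1] [2, 1] 0 (n * t + 2) 2 hmod).2.1 (by omega) le_rfl
  have h7 := RR.append (RR.refl (X n)) h6
  exact θ.trans (RR.symm h6) (θ.trans h5 h7)

end Pool.Agent.MWGR.H10
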