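import Pool.Agent.MWGR.StmtsE

/-!
# Row SQL of the table mwgr: letters in increasing blocks behind block `i`
-/

namespace Pool.Agent.MWGR.H10

open Pool.Agent.Helper14_MV Pool.Agent.Helper2_MV Pool.Agent.MVO Pool.Agent.MWL Pool.Agent.MWS
  Pool.Agent.MWH Pool.Agent.MWGR

theorem suf_sub (B : ℕ → List ℕ) (i r s : ℕ) : (suf B i r).Sublist (suf B i (r + s)) := by
  induction s with
  | zero => exact List.Sublist.refl _
  | succ s ih =>
    rw [← Nat.add_assoc, suf]
    exact ih.trans (List.sublist_append_left _ _)

theorem inc_lt {R : ℕ} {j : ℕ → ℕ} (h : ∀ t, t + 1 < R → j t < j (t + 1)) :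
    ∀ d t, t + d + 1 < R → j t < j (t + d + 1)
  | 0, t, ht => h t ht
  | d + 1, t, ht => by
    have h1 := inc_lt h d t (by omega)
    have h2 := h (t + d + 1) (by omega)
    have e : t + (d + 1) + 1 = t + d + 1 + 1 := by omega
    rw [e]
    omega

theorem sql : SqlStmt := by
  intro k i r B j c
  induction r generalizing k with
  | zero => intro _ _ _; simp
  | succ r ih =>
    intro hik hj hinc
    obtain ⟨h1, h2, h3⟩ := hj r (by omega)
    obtain ⟨s, hs⟩ : ∃ s, j r = i + (s + 1) := ⟨j r - i - 1, by omega⟩
    have h4 : ((List.range r).map c).Sublist (suf B i (i + s - i)) := by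
      refine ih (i + s) (by omega) ?_ ?_
      · intro t ht
        obtain ⟨h5, h6, h7⟩ := hj t (by omega)
        refine ⟨h5, ?_, h7⟩
        have h8 := inc_lt hinc (r - t - 1) t (by omega)
        have e : t + (r - t - 1) + 1 = r := by omega
        rw [e] at h8
        omega
      · intro t ht
        exact hinc t (by omega)
    have e1 : i + s - i = s := by omega
    rw [e1] at h4
    have h5 : ((List.range (r + 1)).map c).Sublist (suf B i (s + 1)) := by
      rw [List.range_succ, List.map_append, suf]
      refine h4.append ?_
      rw [List.map_singleton, List.singleton_sublist]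
      apply List.mem_cons_of_mem
      have e2 : i + s + 1 = j r := by omega
      rw [e2]
      exact h3
    have e3 : k - i = (s + 1) + (k - j r) := by omega
    rw [e3]
    exact h5.trans (suf_sub B i (s + 1) (k - j r))

end Pool.Agent.MWGR.H10
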